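import Pool.Agent.VM5.StmtsB
import Pool.Agent.Helper89_VM5.QEE

/-!
# Squad VMF, part B, module QEw: the number of `(x, x', d, d')` for a given common divisor
-/

set_option autoImplicit false

namespace Pool.Agent.VM5.H75

open Pool.Agent.VM5 Pool.Agent.VM5.H89

theorem qew (slp : SlpStmt) (rtu : VM.RtuStmt) : QewStmt := by
  classical
  intro ε hε
  obtain ⟨C', hC', hrtu⟩ := rtu 4 (by norm_num) (ε / 4) (by positivity)
  refine ⟨20000 * max 1 C', by positivity, ?_⟩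
  intro N D K u H g e t b S hpar hg hgH hHN he heH
  obtain ⟨hp1, hp2, hD, hND2, hNK3, hDN2, hDK2, hu1, hbu, hWK, hWDK, hNW, hS⟩ := hpar
  obtain ⟨P, hP⟩ : ∃ P : (ℕ × ℕ) × (ℕ × ℕ) → Prop, P = QP H e g u K t b S := ⟨_, rfl⟩
  have hgoal : (Nat.card {x : (ℕ × ℕ) × (ℕ × ℕ) // P x} : ℝ) ≤
      20000 * max 1 C' * (N : ℝ) ^ ε * (((g : ℝ) * (N : ℝ) / (H : ℝ)) * (D : ℝ) ^ 2 *
        ((H : ℝ) / (e : ℝ)) ^ 2 / WW N u t b + min ((D : ℝ) ^ 2) (((H : ℝ) / (e : ℝ)) ^ 2)) := ?_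
  · rw [hP] at hgoal
    exact hgoal
  -- positivity
  have hu : 1 ≤ u := by omega
  have hK : 1 ≤ K := by
    rcases Nat.eq_zero_or_pos K with h | h
    · subst h; omega
    · exact h
  have hH : 1 ≤ H := he.trans heH
  have hN : 1 ≤ N := hH.trans hHN
  have hDK : K ≤ N := by nlinarith
  have hur : (1 : ℝ) ≤ u := by exact_mod_cast hu
  have hWu : (u : ℝ) ≤ WW N u t b := le_max_left _ _
  have hW0 : 0 < WW N u t b := by linarith
  have hHr : (1 : ℝ) ≤ H := by exact_mod_cast hH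
  have her : (1 : ℝ) ≤ e := by exact_mod_cast he
  have hNr : (1 : ℝ) ≤ N := by exact_mod_cast hN
  have hgr : (1 : ℝ) ≤ g := by exact_mod_cast hg
  have hNε : (1 : ℝ) ≤ (N : ℝ) ^ ε := Real.one_le_rpow hNr hε.le
  have hmax : (1 : ℝ) ≤ max 1 C' := le_max_left _ _
  have hX0 : 0 ≤ ((g : ℝ) * (N : ℝ) / (H : ℝ)) * (D : ℝ) ^ 2 *
        ((H : ℝ) / (e : ℝ)) ^ 2 / WW N u t b := by positivity
  -- finiteness
  have hfin1 : ∀ x, P x → x.1 ∈ Finset.Icc 1 (H / e) ×ˢ Finset.Icc 1 (H / e) := by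
    intro x hx
    rw [hP] at hx
    obtain ⟨h1, h2, h3, h4, -⟩ := hx
    rw [Finset.mem_product, Finset.mem_Icc, Finset.mem_Icc]
    refine ⟨⟨pos_of h1, ?_⟩, ⟨pos_of h3, ?_⟩⟩
    · rw [Nat.le_div_iff_mul_le (by omega), mul_comm]; exact h2
    · rw [Nat.le_div_iff_mul_le (by omega), mul_comm]; exact h4
  have hfin2 : ∀ x, P x → x.2 ∈ S ×ˢ S := by
    intro x hx
    rw [hP] at hx
    obtain ⟨-, -, -, -, -, -, -, h8, h9, -⟩ := hx
    exact Finset.mem_product.mpr ⟨h8, h9⟩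
  have hfin : {x | P x}.Finite := by
    refine Set.Finite.subset (((Finset.Icc 1 (H / e) ×ˢ Finset.Icc 1 (H / e)) ×ˢ
      (S ×ˢ S)).finite_toSet) ?_
    intro x hx
    exact Finset.mem_coe.mpr (Finset.mem_product.mpr ⟨hfin1 x hx, hfin2 x hx⟩)
  -- the empty case
  by_cases hemp : ∃ x, P x
  swap
  · have h0 : Nat.card {x : (ℕ × ℕ) × (ℕ × ℕ) // P x} = 0 := by
      have : IsEmpty {x : (ℕ × ℕ) × (ℕ × ℕ) // P x} := ⟨fun x => hemp ⟨x.1, x.2⟩⟩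
      exact Nat.card_of_isEmpty
    rw [h0, Nat.cast_zero]
    positivity
  obtain ⟨x₀, hx₀⟩ := hemp
  obtain ⟨M, hMdef⟩ : ∃ M : ℕ, M = u / Nat.gcd u (5 * e) := ⟨_, rfl⟩
  have hMge : u ≤ 5 * g * M := by
    rw [hP] at hx₀
    rw [hMdef]
    exact M_ge hu hx₀.2.2.2.2.2.1
  have hM : 1 ≤ M := by
    rcases Nat.eq_zero_or_pos M with h | h
    · subst h; omega
    · exact h
  have hMu : M ∣ u := by
    rw [hMdef]
    exact Nat.div_dvd_of_dvd (Nat.gcd_dvd_left _ _)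
  have hMr : (1 : ℝ) ≤ M := by exact_mod_cast hM
  have hMger : (u : ℝ) ≤ 5 * g * M := by exact_mod_cast hMge
  obtain ⟨δ, hδ⟩ : ∃ δ : ℝ, δ = 250 * u * N / (WW N u t b * H) := ⟨_, rfl⟩
  have hδ0 : 0 ≤ δ := by rw [hδ]; positivity
  have hδM : δ / M ≤ 1250 * (g * N / H) / WW N u t b := by
    rw [hδ, div_div, mul_div_assoc', div_div, div_le_div_iff₀ (by positivity) (by positivity)]
    have : (u : ℝ) * (250 * N * (H * WW N u t b)) ≤ (5 * g * M) * (250 * N * (H * WW N u t b)) :=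
      mul_le_mul_of_nonneg_right hMger (by positivity)
    calc 250 * (u : ℝ) * N * (H * WW N u t b) = (u : ℝ) * (250 * N * (H * WW N u t b)) := by ring
      _ ≤ (5 * g * M) * (250 * N * (H * WW N u t b)) := this
      _ = 1250 * (g * N) * (WW N u t b * H * M) := by ring
  have hYr : ((H / e : ℕ) : ℝ) ≤ (H : ℝ) / (e : ℝ) := Nat.cast_div_le
  -- the common facts
  have hkey : ∀ x, P x → (e : ℝ) * |(x.1.1 : ℝ) * (x.2.1 : ℝ) ^ 4 -
      (x.1.2 : ℝ) * (x.2.2 : ℝ) ^ 4| * WW N u t b ≤ 125 * u * N * (D : ℝ) ^ 4 := by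
    intro x hx
    rw [hP] at hx
    obtain ⟨-, h2, -, h4, -, -, -, h8, h9, -, -, h12⟩ := hx
    exact key hp2 hK hHN h2 h4 (hS _ h8).2.1 (hS _ h9).2.1 h12
  have hdvd : ∀ x, P x → (M : ℤ) ∣ (x.1.1 : ℤ) * (x.2.1 : ℤ) ^ 4 -
      (x.1.2 : ℤ) * (x.2.2 : ℤ) ^ 4 := by
    intro x hx
    rw [hP] at hx
    rw [hMdef]
    exact dvd_M hu _ hx.2.2.2.2.2.2.2.2.2.2.1
  -- first bound
  have hal : (Nat.card {x : (ℕ × ℕ) × (ℕ × ℕ) // P x} : ℝ) ≤
      ((S ×ˢ S).card : ℝ) * (1 + 2 * δ * ((H / e : ℕ) : ℝ) ^ 2 / (M : ℝ)) := by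
    refine Kit.card_fib_le hfin (fun x => x.2) (S ×ˢ S) _ hfin2 ?_
    intro y hy
    rw [Finset.mem_product] at hy
    have hA0 : ∀ p : ℕ × ℕ, P (p, y) → p ∈ Finset.Icc 1 (H / e) ×ˢ Finset.Icc 1 (H / e) :=
      fun p hp => hfin1 (p, y) hp
    have hQfin : {p : ℕ × ℕ | P (p, y)}.Finite :=
      Set.Finite.subset (Finset.finite_toSet _) fun p hp => Finset.mem_coe.mpr (hA0 p hp)
    have h1 : Nat.card {x : (ℕ × ℕ) × (ℕ × ℕ) // P x ∧ x.2 = y} ≤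
        Nat.card {p : ℕ × ℕ // P (p, y)} := by
      refine Kit.card_inj_le (fun x => x.1) hQfin ?_ ?_
      · rintro ⟨p, q⟩ ⟨hx, hq⟩
        simp only at hq
        subst hq
        exact hx
      · rintro ⟨p, q⟩ ⟨p', q'⟩ ⟨_, hq⟩ ⟨_, hq'⟩ hpp
        simp only at hq hq' hpp
        rw [hq, hq', hpp]
    rw [Kit.card_eq_filter (P := fun p : ℕ × ℕ => P (p, y)) _ hA0] at h1
    refine (Nat.cast_le.mpr h1).trans ?_
    refine al slp _ (H / e) M y.1 y.2 δ hM hδ0 (cop (hS _ hy.1).2.2.1 (hS _ hy.1).2.2.2 hMu) ?_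
    intro p hp
    have hpP := (Finset.mem_filter.mp hp).2
    have hpI := (Finset.mem_filter.mp hp).1
    rw [Finset.mem_product, Finset.mem_Icc, Finset.mem_Icc] at hpI
    have hk := hkey _ hpP
    have hdv := hdvd _ hpP
    rw [hP] at hpP
    obtain ⟨h1, h2, h3, h4, h5, -⟩ := hpP
    refine ⟨hpI.1.1, hpI.2.1, hpI.2.2, h5, ?_, hdv⟩
    rw [hδ]
    exact slope hW0 hH he h3 (hS _ hy.1).1 hk
  -- second bound
  obtain ⟨R, hR⟩ : ∃ R : ℕ, R = ((Finset.range M).filter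
    (fun x => Nat.Coprime x M ∧ x ^ 4 ≡ 1 [MOD M])).card := ⟨_, rfl⟩
  have hbe : (Nat.card {x : (ℕ × ℕ) × (ℕ × ℕ) // P x} : ℝ) ≤
      ((Finset.Icc 1 (H / e) ×ˢ Finset.Icc 1 (H / e)).card : ℝ) *
        ((R : ℝ) * (1 + 16 * δ * (D : ℝ) ^ 2 / (M : ℝ))) := by
    refine Kit.card_fib_le hfin (fun x => x.1) _ _ hfin1 ?_
    intro y hy
    have hA0 : ∀ p : ℕ × ℕ, P (y, p) → p ∈ S ×ˢ S := fun p hp => hfin2 (y, p) hp
    have hQfin : {p : ℕ × ℕ | P (y, p)}.Finite :=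
      Set.Finite.subset (Finset.finite_toSet _) fun p hp => Finset.mem_coe.mpr (hA0 p hp)
    have h1 : Nat.card {x : (ℕ × ℕ) × (ℕ × ℕ) // P x ∧ x.1 = y} ≤
        Nat.card {p : ℕ × ℕ // P (y, p)} := by
      refine Kit.card_inj_le (fun x => x.2) hQfin ?_ ?_
      · rintro ⟨p, q⟩ ⟨hx, hq⟩
        simp only at hq
        subst hq
        exact hx
      · rintro ⟨p, q⟩ ⟨p', q'⟩ ⟨_, hq⟩ ⟨_, hq'⟩ hpp
        simp only at hq hq' hpp
        rw [hq, hq', hpp]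
    rw [Kit.card_eq_filter (P := fun p : ℕ × ℕ => P (y, p)) _ hA0] at h1
    refine (Nat.cast_le.mpr h1).trans ?_
    rcases ((S ×ˢ S).filter (fun p : ℕ × ℕ => P (y, p))).eq_empty_or_nonempty with h0 | ⟨q, hq⟩
    · rw [h0]
      simp only [Finset.card_empty, Nat.cast_zero]
      positivity
    have hqP := (Finset.mem_filter.mp hq).2
    have hqdv := hdvd _ hqP
    have hyM : Nat.Coprime y.1 M := by
      rw [hP] at hqP
      obtain ⟨h1, h2, h3, h4, h5, h6, h7, h8, h9, -⟩ := hqP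
      exact cop_x hMu h5 (hS _ h9).2.2.1 (hS _ h9).2.2.2 hqdv
    refine be slp _ D M y.1 y.2 u R δ hM hMu hδ0 hyM (le_of_eq hR.symm) ?_
    intro p hp
    have hpP := (Finset.mem_filter.mp hp).2
    have hk := hkey _ hpP
    have hdv := hdvd _ hpP
    rw [hP] at hpP
    obtain ⟨h1, h2, h3, h4, h5, h6, h7, h8, h9, h10, -⟩ := hpP
    obtain ⟨a1, a2, a3, a4⟩ := hS _ h8
    obtain ⟨b1, b2, b3, b4⟩ := hS _ h9
    refine ⟨a1, a2, b1, b2, a3, b3, h10, a4, b4, ?_, hdv⟩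
    rw [hδ]
    rw [abs_sub_comm] at hk
    exact slope hW0 hH he h1 b1 hk
  -- the number of `(d, d')`
  have hScard : ((S ×ˢ S).card : ℝ) ≤ (D : ℝ) ^ 2 := by
    have h1 : S.card ≤ D := by
      have h2 : S ⊆ Finset.Ioc D (2 * D) := by
        intro d hd
        exact Finset.mem_Ioc.mpr ⟨(hS _ hd).1, (hS _ hd).2.1⟩
      have h3 := Finset.card_le_card h2
      rw [Nat.card_Ioc] at h3
      omega
    have h1r : (S.card : ℝ) ≤ D := by exact_mod_cast h1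
    rw [Finset.card_product, Nat.cast_mul, sq]
    exact mul_le_mul h1r h1r (Nat.cast_nonneg _) (Nat.cast_nonneg _)
  have hYcard : ((Finset.Icc 1 (H / e) ×ˢ Finset.Icc 1 (H / e)).card : ℝ) ≤
      ((H : ℝ) / (e : ℝ)) ^ 2 := by
    rw [Finset.card_product, Nat.card_Icc, Nat.add_sub_cancel, Nat.cast_mul, sq]
    exact mul_le_mul hYr hYr (Nat.cast_nonneg _) (by positivity)
  -- the number of roots
  have hRr : (R : ℝ) ≤ C' * (N : ℝ) ^ ε := by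
    have h1 : (R : ℝ) ≤ C' * (M : ℝ) ^ (ε / 4) := by
      rw [hR]
      exact hrtu M hM
    have h2 : (M : ℝ) ≤ (N : ℝ) ^ (4 : ℕ) := by
      have a1 : (M : ℝ) ≤ u := by exact_mod_cast Nat.le_of_dvd hu hMu
      have a2 : (K : ℝ) ^ 4 ≤ (N : ℝ) ^ 4 :=
        pow_le_pow_left₀ (Nat.cast_nonneg _) (by exact_mod_cast hDK) 4
      linarith
    have h3 : (M : ℝ) ^ (ε / 4) ≤ (N : ℝ) ^ ε := by
      calc (M : ℝ) ^ (ε / 4) ≤ ((N : ℝ) ^ (4 : ℕ)) ^ (ε / 4) :=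
            Real.rpow_le_rpow (Nat.cast_nonneg _) h2 (by positivity)
        _ = (N : ℝ) ^ ε := by
            rw [← Real.rpow_natCast, ← Real.rpow_mul (Nat.cast_nonneg _)]
            congr 1
            push_cast
            ring
    exact h1.trans (mul_le_mul_of_nonneg_left h3 hC'.le)
  obtain ⟨X, hX⟩ : ∃ X : ℝ, X = ((g : ℝ) * (N : ℝ) / (H : ℝ)) * (D : ℝ) ^ 2 *
        ((H : ℝ) / (e : ℝ)) ^ 2 / WW N u t b := ⟨_, rfl⟩
  have hal' : (Nat.card {x : (ℕ × ℕ) × (ℕ × ℕ) // P x} : ℝ) ≤ (D : ℝ) ^ 2 + 2500 * X := by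
    have h1 : 2 * δ * ((H / e : ℕ) : ℝ) ^ 2 / (M : ℝ) ≤
        2500 * ((g : ℝ) * (N : ℝ) / (H : ℝ)) / WW N u t b * ((H : ℝ) / (e : ℝ)) ^ 2 := by
      calc 2 * δ * ((H / e : ℕ) : ℝ) ^ 2 / (M : ℝ) = 2 * (δ / M) * ((H / e : ℕ) : ℝ) ^ 2 := by ring
        _ ≤ 2 * (1250 * (g * N / H) / WW N u t b) * ((H : ℝ) / (e : ℝ)) ^ 2 := by
            refine mul_le_mul ?_ ?_ (by positivity) (by positivity)
            · linarith
            · exact pow_le_pow_left₀ (Nat.cast_nonneg _) hYr 2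
        _ = 2500 * ((g : ℝ) * (N : ℝ) / (H : ℝ)) / WW N u t b * ((H : ℝ) / (e : ℝ)) ^ 2 := by ring
    calc (Nat.card {x : (ℕ × ℕ) × (ℕ × ℕ) // P x} : ℝ)
        ≤ ((S ×ˢ S).card : ℝ) * (1 + 2 * δ * ((H / e : ℕ) : ℝ) ^ 2 / (M : ℝ)) := hal
      _ ≤ (D : ℝ) ^ 2 * (1 + 2500 * ((g : ℝ) * (N : ℝ) / (H : ℝ)) / WW N u t b *
            ((H : ℝ) / (e : ℝ)) ^ 2) :=
          mul_le_mul hScard (by linarith) (by positivity) (by positivity)
      _ = (D : ℝ) ^ 2 + 2500 * X := by rw [hX]; ring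
  have hbe' : (Nat.card {x : (ℕ × ℕ) × (ℕ × ℕ) // P x} : ℝ) ≤
      C' * (N : ℝ) ^ ε * (((H : ℝ) / (e : ℝ)) ^ 2 + 20000 * X) := by
    have h1 : 16 * δ * (D : ℝ) ^ 2 / (M : ℝ) ≤
        20000 * ((g : ℝ) * (N : ℝ) / (H : ℝ)) / WW N u t b * (D : ℝ) ^ 2 := by
      calc 16 * δ * (D : ℝ) ^ 2 / (M : ℝ) = 16 * (δ / M) * (D : ℝ) ^ 2 := by ring
        _ ≤ 16 * (1250 * (g * N / H) / WW N u t b) * (D : ℝ) ^ 2 := by
            refine mul_le_mul_of_nonneg_right ?_ (by positivity)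
            linarith
        _ = 20000 * ((g : ℝ) * (N : ℝ) / (H : ℝ)) / WW N u t b * (D : ℝ) ^ 2 := by ring
    calc (Nat.card {x : (ℕ × ℕ) × (ℕ × ℕ) // P x} : ℝ)
        ≤ ((Finset.Icc 1 (H / e) ×ˢ Finset.Icc 1 (H / e)).card : ℝ) *
            ((R : ℝ) * (1 + 16 * δ * (D : ℝ) ^ 2 / (M : ℝ))) := hbe
      _ ≤ ((H : ℝ) / (e : ℝ)) ^ 2 * ((C' * (N : ℝ) ^ ε) *
            (1 + 20000 * ((g : ℝ) * (N : ℝ) / (H : ℝ)) / WW N u t b * (D : ℝ) ^ 2)) := by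
          refine mul_le_mul hYcard ?_ (by positivity) (by positivity)
          exact mul_le_mul hRr (by linarith) (by positivity) (by positivity)
      _ = C' * (N : ℝ) ^ ε * (((H : ℝ) / (e : ℝ)) ^ 2 + 20000 * X) := by rw [hX]; ring
  rw [← hX] at hX0 ⊢
  rcases le_total ((D : ℝ) ^ 2) (((H : ℝ) / (e : ℝ)) ^ 2) with hle | hle
  · rw [min_eq_left hle]
    refine hal'.trans ?_
    have h1 : (1 : ℝ) ≤ max 1 C' * (N : ℝ) ^ ε := one_le_mul_of_one_le_of_one_le hmax hNε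
    calc (D : ℝ) ^ 2 + 2500 * X ≤ 1 * (20000 * (X + (D : ℝ) ^ 2)) := by
          have : 0 ≤ (D : ℝ) ^ 2 := by positivity
          linarith
      _ ≤ (max 1 C' * (N : ℝ) ^ ε) * (20000 * (X + (D : ℝ) ^ 2)) :=
          mul_le_mul_of_nonneg_right h1 (by positivity)
      _ = 20000 * max 1 C' * (N : ℝ) ^ ε * (X + (D : ℝ) ^ 2) := by ring
  · rw [min_eq_right hle]
    refine hbe'.trans ?_
    have h1 : C' * (N : ℝ) ^ ε ≤ max 1 C' * (N : ℝ) ^ ε :=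
      mul_le_mul_of_nonneg_right (le_max_right _ _) (by positivity)
    calc C' * (N : ℝ) ^ ε * (((H : ℝ) / (e : ℝ)) ^ 2 + 20000 * X)
        ≤ (max 1 C' * (N : ℝ) ^ ε) * (20000 * (X + ((H : ℝ) / (e : ℝ)) ^ 2)) := by
          refine mul_le_mul h1 ?_ (by positivity) (by positivity)
          have : 0 ≤ ((H : ℝ) / (e : ℝ)) ^ 2 := by positivity
          linarith
      _ = 20000 * max 1 C' * (N : ℝ) ^ ε * (X + ((H : ℝ) / (e : ℝ)) ^ 2) := by ring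

end Pool.Agent.VM5.H75
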